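import Pool.Agent.E8helper59.TS.Stm4
import Pool.Agent.E8helper54.TS.Volg
import Pool.Agent.E8helper3.TS.Box

/-!
# Project TS, piece TS37 (BOXF): the bound in a parallelotope (helper66)
-/

set_option autoImplicit false
open MeasureTheory Set Filter Topology
open scoped Pointwise ENNReal

namespace Pool.Agent.E8helper66.TS

open Pool.Agent.E8helper59.TS
open Pool.Agent.E8helper74.TS (vol_image)
open Pool.Agent.E8helper54.TS (haarG vol_cubeG)

lemma lin_eq {d : ℕ} (φ : (Fin d → ℝ) →ₗ[ℝ] ℝ) (v : Fin d → ℝ) :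
    φ v = ∑ k, v k * φ (Pi.single k 1) := by
  have e : v = ∑ k, v k • (Pi.single k 1 : Fin d → ℝ) := by
    funext j
    simp [Finset.sum_apply, Pi.single_apply]
  conv_lhs => rw [e]
  rw [map_sum]
  exact Finset.sum_congr rfl fun k _ => by rw [map_smul, smul_eq_mul]

/-- the coefficients of a functional -/
noncomputable def cf {d : ℕ} (f : G 0 d →L[ℝ] ℝ) (k : Fin d) : ℝ := f (0, Pi.single k 1)

lemma f_eq {d : ℕ} (f : G 0 d →L[ℝ] ℝ) (x : G 0 d) : f x = ∑ k, x.2 k * cf f k := by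
  have e : x = (0, x.2) := Prod.ext (Subsingleton.elim _ _) rfl
  have h := lin_eq ((f : G 0 d →ₗ[ℝ] ℝ) ∘ₗ LinearMap.inr ℝ (Fin 0 → ℝ × ℝ) (Fin d → ℝ)) x.2
  have h1 : f x = f (0, x.2) := by rw [← e]
  rw [h1]
  exact h

lemma span_top {d n : ℕ} (u : Fin n → Fin d → ℝ)
    (h : ∀ x : Fin d → ℝ, (∀ i, ∑ k, x k * u i k = 0) → x = 0) :
    Submodule.span ℝ (range u) = ⊤ := by
  by_contra hne
  obtain ⟨φ, hφ, hle⟩ := Submodule.exists_le_ker_of_lt_top _ (lt_top_iff_ne_top.2 hne)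
  apply hφ
  have hx := h (fun k => φ (Pi.single k 1)) (fun i => by
    have h1 : u i ∈ LinearMap.ker φ := hle (Submodule.subset_span ⟨i, rfl⟩)
    rw [LinearMap.mem_ker, lin_eq] at h1
    rw [← h1]
    exact Finset.sum_congr rfl fun k _ => mul_comm _ _)
  refine LinearMap.ext fun v => ?_
  rw [lin_eq, LinearMap.zero_apply]
  refine Finset.sum_eq_zero fun k _ => ?_
  have := congrFun hx k
  simp only [Pi.zero_apply] at this
  rw [this, mul_zero]

lemma zero_of_const {V : Type} [NormedAddCommGroup V] [NormedSpace ℝ V] {K : Set V}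
    (hi : (interior K).Nonempty) (f : V →L[ℝ] ℝ) {A : ℝ} (h : ∀ x ∈ K, f x = A) (x : V) :
    f x = 0 := by
  obtain ⟨q, hq⟩ := hi
  have hc : Continuous (fun δ : ℝ => q + δ • x) := by fun_prop
  have h0 : (fun δ : ℝ => q + δ • x) ⁻¹' (interior K) ∈ 𝓝 (0 : ℝ) := by
    refine (isOpen_interior.preimage hc).mem_nhds ?_
    simpa using hq
  have h1 : ∀ᶠ δ in 𝓝[>] (0 : ℝ), q + δ • x ∈ interior K := nhdsWithin_le_nhds h0
  obtain ⟨δ, h2, h3⟩ := (h1.and self_mem_nhdsWithin).exists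
  have h4 := h _ (interior_subset h2)
  have h5 := h _ (interior_subset hq)
  rw [map_add, map_smul, smul_eq_mul, h5] at h4
  have h6 : δ * f x = 0 := by linarith
  have h7 : (0 : ℝ) < δ := h3
  exact (mul_eq_zero.1 h6).resolve_left h7.ne'

lemma two_left {d : ℕ} (J : Fin d → Fin (d + 2)) (hJ : Function.Injective J) :
    ∃ i₁ i₂ : Fin (d + 2), ∀ i, (∃ j, J j = i) ∨ i = i₁ ∨ i = i₂ := by
  have h1 : (Finset.univ.image J).card = d := by
    rw [Finset.card_image_of_injective _ hJ, Finset.card_univ, Fintype.card_fin]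
  have h2 : (Finset.univ.image J)ᶜ.card = 2 := by
    rw [Finset.card_compl, h1, Fintype.card_fin]
    omega
  obtain ⟨i₁, i₂, -, h3⟩ := Finset.card_eq_two.1 h2
  refine ⟨i₁, i₂, fun i => ?_⟩
  by_cases hi : i ∈ Finset.univ.image J
  · left
    obtain ⟨j, -, hj⟩ := Finset.mem_image.1 hi
    exact ⟨j, hj⟩
  · right
    have h4 : i ∈ (Finset.univ.image J)ᶜ := Finset.mem_compl.2 hi
    rw [h3] at h4
    simpa using h4

/-- separation by a hyperplane gives a slab of width one for the normalized functional -/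
lemma slab_of {V : Type} [NormedAddCommGroup V] [NormedSpace ℝ V] {K : Set V} {f g : V →L[ℝ] ℝ}
    {a c w : ℝ} {x₀ x₁ : V} (h0 : x₀ ∈ K) (h1 : x₁ ∈ K) (hw : w = f x₁ - f x₀) (hw0 : 0 < w)
    (hg : ∀ x, g x = a * f x) (ha : a ≠ 0) (F : Finset V) {t s : V}
    (hF : ∀ r ∈ F, (∀ x ∈ K, g (r + x) ≤ c) ∨ ∀ x ∈ K, c ≤ g (r + x))
    (ht : ∀ x ∈ K, g (t + x) ≤ c) (hs : ∀ x ∈ K, c ≤ g (s + x)) :
    Slab (fun x => w⁻¹ * f x) F t s ∨ Slab (fun x => w⁻¹ * f x) F s t := by
  have key1 : 0 < a → (∀ r, (∀ x ∈ K, g (r + x) ≤ c) → w⁻¹ * f r ≤ w⁻¹ * (c / a - f x₁)) ∧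
      (∀ r, (∀ x ∈ K, c ≤ g (r + x)) → w⁻¹ * (c / a - f x₁) + 1 ≤ w⁻¹ * f r) := by
    intro hpos
    refine ⟨fun r hr => ?_, fun r hr => ?_⟩
    · have h2 := hr x₁ h1
      rw [hg, map_add, mul_comm, ← le_div_iff₀ hpos] at h2
      exact mul_le_mul_of_nonneg_left (by linarith) (inv_nonneg.2 hw0.le)
    · have h2 := hr x₀ h0
      rw [hg, map_add, mul_comm, ← div_le_iff₀ hpos] at h2
      have h3 : w⁻¹ * (c / a - f x₁) + 1 = w⁻¹ * (c / a - f x₀) := by
        have : w⁻¹ * w = 1 := inv_mul_cancel₀ hw0.ne'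
        rw [← this, hw]; ring
      rw [h3]
      exact mul_le_mul_of_nonneg_left (by linarith) (inv_nonneg.2 hw0.le)
  have key2 : a < 0 → (∀ r, (∀ x ∈ K, c ≤ g (r + x)) → w⁻¹ * f r ≤ w⁻¹ * (c / a - f x₁)) ∧
      (∀ r, (∀ x ∈ K, g (r + x) ≤ c) → w⁻¹ * (c / a - f x₁) + 1 ≤ w⁻¹ * f r) := by
    intro hneg
    refine ⟨fun r hr => ?_, fun r hr => ?_⟩
    · have h2 := hr x₁ h1
      rw [hg, map_add, mul_comm, ← le_div_iff_of_neg hneg] at h2
      exact mul_le_mul_of_nonneg_left (by linarith) (inv_nonneg.2 hw0.le)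
    · have h2 := hr x₀ h0
      rw [hg, map_add, mul_comm, ← div_le_iff_of_neg hneg] at h2
      have h3 : w⁻¹ * (c / a - f x₁) + 1 = w⁻¹ * (c / a - f x₀) := by
        have : w⁻¹ * w = 1 := inv_mul_cancel₀ hw0.ne'
        rw [← this, hw]; ring
      rw [h3]
      exact mul_le_mul_of_nonneg_left (by linarith) (inv_nonneg.2 hw0.le)
  rcases lt_or_gt_of_ne ha with hneg | hpos
  · right
    obtain ⟨k1, k2⟩ := key2 hneg
    refine ⟨w⁻¹ * (c / a - f x₁), k1 s hs, k2 t ht, fun r hr => ?_⟩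
    rcases hF r hr with h | h
    · exact Or.inr (k2 r h)
    · exact Or.inl (k1 r h)
  · left
    obtain ⟨k1, k2⟩ := key1 hpos
    refine ⟨w⁻¹ * (c / a - f x₁), k1 t ht, k2 s hs, fun r hr => ?_⟩
    rcases hF r hr with h | h
    · exact Or.inl (k1 r h)
    · exact Or.inr (k2 r h)

/-- slabs of an image -/
lemma slab_image {α β : Type} [DecidableEq β] {ψ : α → β} {g : α → ℝ} {g' : β → ℝ}
    (hg : ∀ x, g x = g' (ψ x)) {F : Finset α} {t s : α} (h : Slab g F t s) :
    Slab g' (F.image ψ) (ψ t) (ψ s) := by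
  obtain ⟨c, h1, h2, h3⟩ := h
  refine ⟨c, by rwa [← hg], by rwa [← hg], fun r hr => ?_⟩
  obtain ⟨r', hr', rfl⟩ := Finset.mem_image.1 hr
  rw [← hg]
  exact h3 r' hr'

theorem t_BOXF (h1 : S_CNTD) (h2 : S_JMAX) : S_BOXF := by
  intro d f K P₀ hKc hKv hKi hker hP hmin
  have hne : K.Nonempty := hKi.mono interior_subset
  have hmm : ∀ i, ∃ a ∈ K, ∃ b ∈ K, ∀ z ∈ K, f i a ≤ f i z ∧ f i z ≤ f i b := by
    intro i
    obtain ⟨a, ha, ham⟩ := hKc.exists_isMinOn hne (f i).continuous.continuousOn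
    obtain ⟨b, hb, hbm⟩ := hKc.exists_isMaxOn hne (f i).continuous.continuousOn
    exact ⟨a, ha, b, hb, fun z hz => ⟨ham hz, hbm hz⟩⟩
  choose a ha b hb hab using hmm
  obtain ⟨w, hw⟩ : ∃ w : Fin (d + 2) → ℝ, ∀ i, w i = f i (b i) - f i (a i) :=
    ⟨fun i => f i (b i) - f i (a i), fun i => rfl⟩
  have hw0 : ∀ i, 0 ≤ w i := fun i => by
    rw [hw]; linarith [(hab i _ (hb i)).1]
  have hwz : ∀ i, w i = 0 → ∀ x, f i x = 0 := by
    intro i hi x
    refine zero_of_const hKi (f i) (A := f i (a i)) (fun z hz => ?_) x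
    have := hab i z hz
    rw [hw] at hi
    linarith [this.1, this.2]
  obtain ⟨u, hu⟩ : ∃ u : Fin (d + 2) → Fin d → ℝ, ∀ i k, u i k = (w i)⁻¹ * cf (f i) k :=
    ⟨fun i k => (w i)⁻¹ * cf (f i) k, fun i k => rfl⟩
  have hU : ∀ i (x : G 0 d), ∑ k, x.2 k * u i k = (w i)⁻¹ * f i x := by
    intro i x
    rw [f_eq (f i) x, Finset.mul_sum]
    refine Finset.sum_congr rfl fun k _ => ?_
    rw [hu]; ring
  have hf0 : ∀ i (x : G 0 d), ∑ k, x.2 k * u i k = 0 → f i x = 0 := by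
    intro i x hx
    by_cases hi : w i = 0
    · exact hwz i hi x
    · rw [hU] at hx
      exact (mul_eq_zero.1 hx).resolve_left (inv_ne_zero hi)
  have hspan := span_top u (fun x hx => by
    have h3 := hker ((0, x) : G 0 d) (fun i => hf0 i _ (hx i))
    exact congrArg Prod.snd h3)
  obtain ⟨J, C, hLI, hC, hC1, hC2⟩ := h2 d (d + 2) u hspan
  have hUC : ∀ i (x : G 0 d), ∑ k, x.2 k * u i k = ∑ j, C i j * ∑ k, x.2 k * u (J j) k := by
    intro i x
    have e : ∀ k, u i k = ∑ j, C i j * u (J j) k := by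
      intro k
      have := congrFun (hC i) k
      rw [this, Finset.sum_apply]
      rfl
    simp_rw [Finset.mul_sum]
    rw [Finset.sum_comm]
    refine Finset.sum_congr rfl fun k _ => ?_
    rw [e k, Finset.mul_sum]
    exact Finset.sum_congr rfl fun j _ => by ring
  let L₀ : G 0 d →ₗ[ℝ] G 0 d :=
    { toFun := fun x => (x.1, fun j => ∑ k, x.2 k * u (J j) k)
      map_add' := by
        intro x y
        refine Prod.ext rfl ?_
        funext j
        simp only [Prod.snd_add, Pi.add_apply, add_mul, Finset.sum_add_distrib]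
      map_smul' := by
        intro c x
        refine Prod.ext rfl ?_
        funext j
        simp only [Prod.smul_snd, Pi.smul_apply, smul_eq_mul, RingHom.id_apply, mul_assoc,
          Finset.mul_sum] }
  have hL₀ : ∀ x, L₀ x = (x.1, fun j => ∑ k, x.2 k * u (J j) k) := fun x => rfl
  have hinj : Function.Injective L₀ := by
    rw [← LinearMap.ker_eq_bot, LinearMap.ker_eq_bot']
    intro x hx
    rw [hL₀] at hx
    apply hker
    intro i
    apply hf0
    rw [hUC]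
    refine Finset.sum_eq_zero fun j _ => ?_
    have h3 : (fun j => ∑ k, x.2 k * u (J j) k) = 0 := congrArg Prod.snd hx
    have h4 := congrFun h3 j
    simp only [Pi.zero_apply] at h4
    rw [h4, mul_zero]
  let Λ : G 0 d ≃L[ℝ] G 0 d := (LinearEquiv.ofInjectiveEndo L₀ hinj).toContinuousLinearEquiv
  have hΛ : ∀ x, Λ x = (x.1, fun j => ∑ k, x.2 k * u (J j) k) := fun x => rfl
  refine ⟨Λ, ?_, ?_⟩
  · have := haarG 0 d
    have hdm : ∀ j, ∃ q ∈ K, ∀ z ∈ K, (Λ q).2 j ≤ (Λ z).2 j ∧ (Λ z).2 j ≤ (Λ q).2 j + 1 := by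
      intro j
      refine ⟨a (J j), ha _, fun z hz => ?_⟩
      have e : ∀ x, (Λ x).2 j = (w (J j))⁻¹ * f (J j) x := by
        intro x
        rw [hΛ]
        exact hU (J j) x
      rw [e, e]
      have h3 := hab (J j) z hz
      have h4 := hw (J j)
      rcases (hw0 (J j)).eq_or_lt with h5 | h5
      · rw [← h5]; simp
      · have h6 : (w (J j))⁻¹ * w (J j) = 1 := inv_mul_cancel₀ h5.ne'
        have h7 : 0 ≤ (w (J j))⁻¹ := inv_nonneg.2 h5.le
        refine ⟨mul_le_mul_of_nonneg_left h3.1 h7, ?_⟩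
        have h8 : (w (J j))⁻¹ * f (J j) (a (J j)) + 1 = (w (J j))⁻¹ * f (J j) (b (J j)) := by
          rw [← h6, h4]; ring
        rw [h8]
        exact mul_le_mul_of_nonneg_left h3.2 h7
    choose q hq hqz using hdm
    set v₀ : G 0 d := (0, fun j => (Λ (q j)).2 j) with hv₀
    have hsub : K ⊆ (fun x => Λ.symm v₀ + Λ.symm x) '' Icc (0 : G 0 d) 1 := by
      intro x hx
      refine ⟨Λ x - v₀, ⟨⟨?_, ?_⟩, ⟨?_, ?_⟩⟩, ?_⟩
      · intro i; exact i.elim0
      · intro j
        have := (hqz j x hx).1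
        show (0 : ℝ) ≤ (Λ x).2 j - (Λ (q j)).2 j
        linarith
      · intro i; exact i.elim0
      · intro j
        have := (hqz j x hx).2
        show (Λ x).2 j - (Λ (q j)).2 j ≤ (1 : ℝ)
        linarith
      · show Λ.symm v₀ + Λ.symm (Λ x - v₀) = x
        rw [← map_add, add_sub_cancel, ContinuousLinearEquiv.symm_apply_apply]
    have hle := hmin _ ⟨Λ.symm v₀, Λ.symm, rfl⟩ hsub
    rw [vol_image volume (Λ.symm v₀) Λ.symm (Icc 0 1), vol_cubeG, mul_one] at hle
    have h3 := ENNReal.toReal_mono ENNReal.ofReal_ne_top hle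
    rw [ENNReal.toReal_ofReal (abs_nonneg _)] at h3
    have h4 : LinearMap.det ((Λ.symm : G 0 d →L[ℝ] G 0 d) : G 0 d →ₗ[ℝ] G 0 d) *
        LinearMap.det ((Λ : G 0 d →L[ℝ] G 0 d) : G 0 d →ₗ[ℝ] G 0 d) = 1 :=
      LinearEquiv.det_symm_mul_det Λ.toLinearEquiv
    calc (volume P₀).toReal * |LinearMap.det ((Λ : G 0 d →L[ℝ] G 0 d) : G 0 d →ₗ[ℝ] G 0 d)|
        ≤ |LinearMap.det ((Λ.symm : G 0 d →L[ℝ] G 0 d) : G 0 d →ₗ[ℝ] G 0 d)| *
          |LinearMap.det ((Λ : G 0 d →L[ℝ] G 0 d) : G 0 d →ₗ[ℝ] G 0 d)| :=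
          mul_le_mul_of_nonneg_right h3 (abs_nonneg _)
      _ = 1 := by rw [← abs_mul, h4, abs_one]
  · intro T hT F y ℓ hℓ hF
    classical
    obtain ⟨i₁, i₂, hi12⟩ := two_left J (by
      intro j j' hjj
      exact hLI.injective (by simp only [hjj]))
    set ψ : G 0 d → (Fin d → ℝ) := fun x => (Λ x).2 with hψ
    have hψinj : Function.Injective ψ := by
      intro x x' hxx
      apply Λ.injective
      exact Prod.ext (Subsingleton.elim _ _) hxx
    have hUψ : ∀ i (x : G 0 d), (w i)⁻¹ * f i x = ∑ j, C i j * ψ x j := by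
      intro i x
      rw [← hU, hUC]
      rfl
    have hUJ : ∀ j (x : G 0 d), (w (J j))⁻¹ * f (J j) x = ψ x j := by
      intro j x
      rw [← hU]
      rfl
    have key := h1 d (C i₁) (C i₂) (F.image ψ) (fun j => y.2 j - ℓ) (fun _ => 2 * ℓ)
      ⟨hC1 i₁, hC1 i₂, hC2 i₁ i₂⟩ (fun _ => by linarith) ?_ ?_
    · rw [Finset.card_image_of_injective _ hψinj] at key
      refine key.trans (le_of_eq ?_)
      rw [Finset.prod_const, Finset.card_univ, Fintype.card_fin]
    · intro t ht j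
      obtain ⟨t', ht', rfl⟩ := Finset.mem_image.1 ht
      have h3 := (hF t' ht').2
      rw [Metric.mem_closedBall, dist_eq_norm] at h3
      have h4 : ‖(Λ t' - y).2 j‖ ≤ ℓ := ((norm_le_pi_norm _ j).trans (norm_snd_le _)).trans h3
      rw [Real.norm_eq_abs, abs_le] at h4
      have h5 : (Λ t' - y).2 j = ψ t' j - y.2 j := rfl
      rw [h5] at h4
      constructor <;> linarith [h4.1, h4.2]
    · intro t ht s hs hts
      obtain ⟨t', ht', rfl⟩ := Finset.mem_image.1 ht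
      obtain ⟨s', hs', rfl⟩ := Finset.mem_image.1 hs
      have hts' : t' ≠ s' := fun h => hts (by rw [h])
      obtain ⟨g, c, hg0, ⟨i, al, hga⟩, hgt, hgs, hgr⟩ := hT t' (hF t' ht').1 s' (hF s' hs').1 hts'
      have hal : al ≠ 0 := by
        rintro rfl
        apply hg0
        refine ContinuousLinearMap.ext fun x => ?_
        rw [hga]; simp
      have hwi : 0 < w i := by
        rcases (hw0 i).eq_or_lt with h5 | h5
        · exfalso
          apply hg0
          refine ContinuousLinearMap.ext fun x => ?_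
          rw [hga, hwz i h5.symm x]; simp
        · exact h5
      have hside : ∀ r ∈ F, (∀ x ∈ K, g (r + x) ≤ c) ∨ ∀ x ∈ K, c ≤ g (r + x) := fun r hr =>
        Pool.Agent.E8helper3.TS.side hKv hKc hKi g c r (hgr r (hF r hr).1)
      have hsl := slab_of (ha i) (hb i) (hw i) hwi hga hal F hside hgt hgs
      rcases hi12 i with ⟨j, rfl⟩ | rfl | rfl
      · left
        refine ⟨j, ?_⟩
        rcases hsl with h | h
        · exact Or.inl (slab_image (g' := fun y : Fin d → ℝ => y j) (fun x => hUJ j x) h)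
        · exact Or.inr (slab_image (g' := fun y : Fin d → ℝ => y j) (fun x => hUJ j x) h)
      · right
        rcases hsl with h | h
        · exact Or.inl (slab_image (ψ := ψ) (g' := fun y => ∑ j, C _ j * y j) (fun x => hUψ _ x) h)
        · exact Or.inr (Or.inl (slab_image (ψ := ψ) (g' := fun y => ∑ j, C _ j * y j) (fun x => hUψ _ x) h))
      · right
        rcases hsl with h | h
        · exact Or.inr (Or.inr (Or.inl (slab_image (ψ := ψ) (g' := fun y => ∑ j, C _ j * y j) (fun x => hUψ _ x) h)))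
        · exact Or.inr (Or.inr (Or.inr (slab_image (ψ := ψ) (g' := fun y => ∑ j, C _ j * y j) (fun x => hUψ _ x) h)))

end Pool.Agent.E8helper66.TS
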